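import Pool.Agent.H73.KFIN.Max

/-!
# The inequality of Q1 from the maximal entropy inequality

`q1_of_MB` gives the inequality of Q1 in the dimension `m + 1` exactly as posed, for all exponents
`1 + 1 / m < q ≤ ∞`, from `MB m (m + 1)`.
-/

set_option autoImplicit false

open MeasureTheory
open scoped RealInnerProductSpace

namespace Pool.KFIN

/-- The inequality of Q1 for tubes of `ℝ ^ (m + 1)` and the exponent `q`, `1 ≤ q ≤ ∞`; for `q = ∞`
the exponents of `δ` and `N` are `0` and `1`. -/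
def Q1 (m : ℕ) (q : ENNReal) : Prop :=
  ∃ C : ℝ, ∀ δ : ℝ, 0 < δ → δ < 1 →
    ∀ (N : ℕ) (c e : Fin N → EuclideanSpace ℝ (Fin (m + 1))),
      (∀ i, ‖e i‖ = 1) → (∀ i j, i ≠ j → δ ≤ ‖e i - e j‖) →
      eLpNorm (fun x => ∑ i, (Pool.Agent.H53.Kak.tube δ (c i) (e i)).indicator
          (fun _ => (1 : ℝ)) x) q volume ≤
        ENNReal.ofReal (C * (δ ^ ((m : ℝ) / q.toReal) * (N : ℝ) ^ (1 - 1 / (q.toReal * m))))

theorem q1_top (m : ℕ) : Q1 m ⊤ := by
  classical
  refine ⟨1, ?_⟩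
  intro δ hδ _ N c e _ _
  rw [ENNReal.toReal_top, div_zero, Real.rpow_zero, zero_mul, div_zero, sub_zero, Real.rpow_one,
    one_mul, one_mul, eLpNorm_exponent_top]
  refine eLpNormEssSup_le_of_ae_bound (Filter.Eventually.of_forall fun x => ?_)
  rw [Real.norm_eq_abs, abs_of_nonneg]
  · calc ∑ i, (Pool.Agent.H53.Kak.tube δ (c i) (e i)).indicator (fun _ => (1 : ℝ)) x ≤
        ∑ _i : Fin N, (1 : ℝ) := by
          refine Finset.sum_le_sum fun i _ => ?_
          rw [Set.indicator_apply]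
          split_ifs <;> norm_num
      _ = N := by simp
  · refine Finset.sum_nonneg fun i _ => ?_
    rw [Set.indicator_apply]
    split_ifs <;> norm_num

/-- **Q1 in the dimension `m + 1` from the maximal entropy inequality.** -/
theorem q1_of_MB {m : ℕ} (hm : 1 ≤ m) (h : MB m (1 + (m : ℝ))) {q : ENNReal}
    (hq : ENNReal.ofReal (1 + 1 / (m : ℝ)) < q) : Q1 m q := by
  by_cases htop : q = ⊤
  · rw [htop]
    exact q1_top m
  have hq' : 1 + 1 / (m : ℝ) < q.toReal := by
    have h1 := (ENNReal.toReal_lt_toReal ENNReal.ofReal_ne_top htop).mpr hq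
    rwa [ENNReal.toReal_ofReal (by positivity)] at h1
  obtain ⟨C, hC⟩ := lossless_of_MB hm h hq'
  refine ⟨C, ?_⟩
  intro δ hδ hδ1 N c e he1 he2
  have h1 := hC δ hδ hδ1 (Fin N) Finset.univ c e
    ⟨fun i _ => he1 i, fun i _ j _ hij => he2 i j hij⟩
  rw [Finset.card_univ, Fintype.card_fin] at h1
  rw [neg_zero, Real.rpow_zero, mul_one, ENNReal.ofReal_toReal htop] at h1
  refine le_trans (le_of_eq ?_) h1
  congr 1
  funext x
  rw [← Pool.Agent.H53.Kak.sum_indicator_eq]

/-- **Q1 for `n = 3` from the maximal entropy inequality.** -/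
theorem q1_three (h : MB 2 3) {q : ENNReal} (hq : ENNReal.ofReal (3 / 2) < q) : Q1 2 q := by
  refine q1_of_MB (m := 2) (by norm_num) ?_ ?_
  · have e : (1 : ℝ) + ((2 : ℕ) : ℝ) = 3 := by norm_num
    rwa [e]
  · have e : 1 + 1 / (((2 : ℕ) : ℝ)) = 3 / 2 := by norm_num
    rwa [e]

end Pool.KFIN
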